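import Mathlib
import Pool.Agent.Lib_MP_8b82cd_ag.Defs
import Pool.Agent.Lib_MP_8b82cd_ag.Transfer
import Pool.Agent.Lib_MP_8b82cd_t.Three

/-!
# Three variables: the weak Lefschetz property can fail in one degree only
-/

namespace Pool.Agent.Results.MP_8b82cd_ag.AllButOneDegree

open Pool.Agent.Lib_MP_8b82cd_ag.Lefschetz

/-- Let `d, k ≥ 1`. For a generic linear form `ℓ`, multiplication by `ℓ` on
`T = ℂ[x,y,z]/(x^d,y^d,z^d)^k`, from degree `i` to degree `i + 1`, has maximal rank for every `i`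
except possibly `i = dk + 2⌊d/(k+3)⌋ - 1`. -/
theorem result (d k : ℕ) (hd : 1 ≤ d) (hk : 1 ≤ k) :
    ForGeneric 3 fun a => ∀ i : ℕ, i + 1 ≠ d * k + 2 * (d / (k + 3)) →
      MaxRank 3 d k (linForm 3 d k a) i 1 := by
  have h1 := (Pool.Agent.Lib_MP_8b82cd_ag.generic_iff 3 d k
    (fun i j => j = 1 ∧ i + 1 ≠ d * k + 2 * (d / (k + 3)))).mpr (by
      rintro i j ⟨rfl, hi⟩
      exact Pool.Agent.Lib_MP_8b82cd_t.maxRank_of_ne hd hk hi)
  obtain ⟨g, hg, h2⟩ := h1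
  exact ⟨g, hg, fun a ha i hi => h2 a ha i 1 ⟨rfl, hi⟩⟩

end Pool.Agent.Results.MP_8b82cd_ag.AllButOneDegree
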