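import Mathlib
import Pool.Agent.Lib_MP_8b82cd_ag.Defs
import Pool.Agent.Lib_MP_8b82cd_ag.Transfer
import Pool.Agent.Lib_MP_8b82cd_ag.Sporadic2
import Pool.Agent.Lib_MP_8b82cd_ag.NegCount
import Pool.Agent.Lib_MP_8b82cd_ag.TwoTwo

/-!
# The strong Lefschetz property of powers of monomial complete intersections

For positive integers `n, d, k` let `T_{n,d,k} = ℂ[x_1, …, x_n] / (x_1^d, …, x_n^d)^k`.
We determine all triples for which `T_{n,d,k}` has the strong Lefschetz property.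
-/

namespace Pool.Agent.Results.MP_8b82cd_ag.StrongLefschetzClassification

open Pool.Agent.Lib_MP_8b82cd_ag Pool.Agent.Lib_MP_8b82cd_ag.Lefschetz

/-- **Classification.** For positive integers `n, d, k`, the algebra
`T_{n,d,k} = ℂ[x_1, …, x_n] / (x_1^d, …, x_n^d)^k` has the strong Lefschetz property if and only if
`n ≤ 2`, or `d = 1`, or `k = 1`, or `d = k = 2`, or `(n, d, k)` is `(3, 2, 3)` or `(3, 3, 2)`. -/
theorem result (n d k : ℕ) (hn : 0 < n) (hd : 0 < d) (hk : 0 < k) :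
    HasSLP n d k ↔
      n ≤ 2 ∨ d = 1 ∨ k = 1 ∨ (d = 2 ∧ k = 2) ∨ (n = 3 ∧ d = 2 ∧ k = 3) ∨
        (n = 3 ∧ d = 3 ∧ k = 2) := by
  rw [hasSLP_iff]
  constructor
  · intro h
    by_contra hcon
    push Not at hcon
    obtain ⟨h1, h2, h3, h4, h5, h6⟩ := hcon
    rcases h (d * k - 2) ((n - 2) * (d - 1) + 1) (by omega) with h7 | h7
    · exact Pool.Agent.Lib_MP_8b82cd_ag.not_injP (by omega) (by omega) (by omega)
        (fun h8 => h4 h8.1 h8.2) (fun h8 => h5 h8.1 h8.2.1 h8.2.2)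
        (fun h8 => h6 h8.1 h8.2.1 h8.2.2) h7
    · exact Pool.Agent.Lib_MP_8b82cd_ag.not_surjP (by omega) (by omega) (by omega) h7
  · rintro (h | h | h | ⟨h1, h2⟩ | ⟨h1, h2, h3⟩ | ⟨h1, h2, h3⟩) i j hj
    · have : n = 1 ∨ n = 2 := by omega
      rcases this with h1 | h1
      · subst h1
        exact Pool.Agent.Lib_MP_8b82cd_ag.n_one_all hd hk i j
      · subst h1
        exact Pool.Agent.Lib_MP_8b82cd_ag.two_all hd i j
    · subst h
      exact Pool.Agent.Lib_MP_8b82cd_ag.d_one_all hn i j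
    · subst h
      exact Pool.Agent.Lib_MP_8b82cd_ag.k_one_all hd i j
    · subst h1; subst h2
      exact Pool.Agent.Lib_MP_8b82cd_ag.pow22 hn i j hj
    · subst h1; subst h2; subst h3
      exact Pool.Agent.Lib_MP_8b82cd_ag.t323 i j hj
    · subst h1; subst h2; subst h3
      exact Pool.Agent.Lib_MP_8b82cd_ag.t332 i j hj

end Pool.Agent.Results.MP_8b82cd_ag.StrongLefschetzClassification
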