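import Mathlib
import Pool.Agent.Lib_MP_8b82cd_ag.Defs
import Pool.Agent.Lib_MP_8b82cd_t.Three

/-!
# The weak Lefschetz property of `ℂ[x,y,z]/(x^d,y^d,z^d)^k`
-/

namespace Pool.Agent.Results.MP_8b82cd_ag.ThreeVariables

open Pool.Agent.Lib_MP_8b82cd_ag.Lefschetz

/-- Three variables. Let `d, k ≥ 1` and `D = |2 (d mod (k+3)) - (k+3)|`. If `k ≤ 5`, or `D ≥ k - 1`,
or `D ≤ 2` and `(k, D) ≠ (7, 2)`, then the algebra `ℂ[x,y,z]/(x^d,y^d,z^d)^k` has the weak Lefschetz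
property if and only if `D ≥ k - 1`. -/
theorem result (d k D : ℕ) (hd : 1 ≤ d) (hk : 1 ≤ k)
    (hD : 2 * (d % (k + 3)) + D = k + 3 ∨ 2 * (d % (k + 3)) = k + 3 + D)
    (h : k ≤ 5 ∨ k ≤ D + 1 ∨ (D ≤ 2 ∧ ¬ (k = 7 ∧ D = 2))) :
    HasWLP 3 d k ↔ k ≤ D + 1 := by
  have h1 : d % (k + 3) < k + 3 := Nat.mod_lt _ (by omega)
  constructor
  · intro hW
    by_contra hcon
    refine Pool.Agent.Lib_MP_8b82cd_t.not_wlp_of_mod hd ?_ hW
    have hD2 : D ≤ 2 := by omega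
    have h3 : D = 0 ∨ D = 1 ∨ D = 2 := by omega
    rcases h3 with rfl | rfl | rfl
    · left
      refine ⟨?_, by omega, by omega⟩
      rw [Nat.odd_iff]
      omega
    · right; left
      refine ⟨?_, by omega, by omega⟩
      rw [Nat.even_iff]
      omega
    · right; right
      refine ⟨?_, by omega, by omega, by omega⟩
      rw [Nat.odd_iff]
      omega
  · intro hk2
    apply Pool.Agent.Lib_MP_8b82cd_t.wlp_of_mod hd hk
    omega

end Pool.Agent.Results.MP_8b82cd_ag.ThreeVariables
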