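import Mathlib
import Pool.Agent.Lib_MP_8b82cd_ag.Defs
import Pool.Agent.Lib_MP_8b82cd_ag.Transfer
import Pool.Agent.Lib_MP_8b82cd_ag.N2
import Pool.Agent.Lib_MP_8b82cd_w.Fin0

/-!
# The weak Lefschetz property of powers of monomial complete intersections

For positive integers `n, d, k` let `T_{n,d,k} = ℂ[x_1, …, x_n] / (x_1^d, …, x_n^d)^k`.
We determine all triples with `n ≠ 3` for which `T_{n,d,k}` has the weak Lefschetz property.
-/

namespace Pool.Agent.Results.MP_8b82cd_ag.WeakLefschetzClassification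

open Pool.Agent.Lib_MP_8b82cd_ag Pool.Agent.Lib_MP_8b82cd_ag.Lefschetz

/-- **Classification for `n ≠ 3`.** For positive integers `n ≠ 3`, `d` and `k`, the algebra
`T_{n,d,k} = ℂ[x_1, …, x_n] / (x_1^d, …, x_n^d)^k` has the weak Lefschetz property if and only if
* `n ≤ 2`, or `d = 1`, or `k = 1`, or
* `k = 2` and `d` is `2` or `3`, or
* `n = 4` or `n` is odd, and `(d, k)` is `(2, 3)` or `(4, 2)`, or
* `n = 5`, `d = 2` and `k ≤ 7`, or `(n, d, k)` is one of `(7, 2, 4)`, `(5, 4, 3)`, `(5, 6, 2)`,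
  `(7, 6, 2)`. -/
theorem result (n d k : ℕ) (hn : 0 < n) (hn3 : n ≠ 3) (hd : 0 < d) (hk : 0 < k) :
    HasWLP n d k ↔
      n ≤ 2 ∨ d = 1 ∨ k = 1 ∨ (k = 2 ∧ (d = 2 ∨ d = 3)) ∨
      ((n = 4 ∨ n % 2 = 1) ∧ ((d = 2 ∧ k = 3) ∨ (d = 4 ∧ k = 2))) ∨
      (n = 5 ∧ d = 2 ∧ k ≤ 7) ∨ (n = 7 ∧ d = 2 ∧ k = 4) ∨ (n = 5 ∧ d = 4 ∧ k = 3) ∨
      ((n = 5 ∨ n = 7) ∧ d = 6 ∧ k = 2) := by
  rcases Nat.lt_or_ge n 3 with h | h
  · constructor
    · intro _
      exact Or.inl (by omega)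
    · intro _
      rw [hasWLP_iff]
      intro i
      have : n = 1 ∨ n = 2 := by omega
      rcases this with h1 | h1
      · subst h1
        exact Pool.Agent.Lib_MP_8b82cd_ag.n_one_all hd hk i 1
      · subst h1
        exact Pool.Agent.Lib_MP_8b82cd_ag.two_all hd i 1
  · rw [Pool.Agent.Lib_MP_8b82cd_w.main (by omega) hd hk]
    constructor
    · intro h1
      exact Or.inr h1
    · rintro (h1 | h1)
      · omega
      · exact h1

end Pool.Agent.Results.MP_8b82cd_ag.WeakLefschetzClassification
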